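import Pool.Agent.Results.MP_03e5d0_nt.FullClassX49
import Pool.Agent.J4H77.GF.Prd
import Pool.Agent.J4H77.GF.Law

/-!
# The twists by products of inert primes of the curves of the family of `X_0(49)`

The class consists of the squarefree `D ≥ 1` with all prime factors `≡ 1 mod 4`, and `E_D` is the
quadratic twist by `D` of `X_0(49) : y² + x y = x³ - x² - 2 x - 1`. We fix `D` and twist `E_D` by the
INERT PRODUCTS: the squarefree `n ≥ 1` all of whose prime factors are `≡ 1 mod 4` and inert in `ℚ(√-7)`
(they need not be coprime to `D`).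

* For EVERY `D` of the class the inert products `n` such that the twist of `E_D` by `n` has finitely many
  rational points and no element of order two in `Ш` have a natural density among all the inert products,
  which is a positive multiple of `2^{-k}`, `k` the number of the prime factors of `D` which split in
  `ℚ(√-7)`. For all these `n` the analytic rank of the twist is zero. So every `E_D` has analytic rank zero
  for a positive proportion of the twists by inert products. (For `D = 1` the proportion is one: this is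
  the theorem of Coates, Li, Tian and Zhai.)
* For almost all `D` of the class this density is close to `c = ∏_{i ≥ 0} (1 - 2^{-(2i+1)}) = 0.4194...`.
  More generally let `T` be a finite subset of the class and `V ⊆ T`. For all `D` of the class the inert
  products `n` such that the twists of `E_D` by `n M`, `M ∈ V`, have analytic rank zero, finitely many
  points and `Ш[2] = 0`, and those by `n M`, `M ∈ T ∖ V`, have infinitely many points or `Ш[2] ≠ 0`, have a
  natural density, and for almost all `D` it is close to `c^|V| (1-c)^|T∖V|`.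

Proof. By the criterion of `MP_4a9ea6_nt/TwoPartTwistsX49` the condition is that a symmetric matrix over
`𝔽₂` is nonsingular, and the inert product `n` changes its diagonal by the vector of the symbols of `n`
modulo the split primes. The characters given by these symbols have mean value zero on the inert products
(`J4H77/GF/Wir`: the identity `log n = ∑_{p ∣ n} log p` reduces it to the prime number theorem in arithmetic
progressions), so that the vector is equidistributed. Any matrix becomes nonsingular by a change of the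
diagonal, and the density is the mean over all diagonals, which is concentrated
(`J4H77/GF/{Coin,Law}`: second moment over `D` of the means over the twists by `m` fixed inert primes).
-/

set_option autoImplicit false

open Filter Topology

namespace Pool.Agent.Results.MP_03e5d0_nt.InertTwistsX49

open Pool.Agent.Results.MP_92892c_nt.FullClassTwoPartX49 (Family RankZeroShaTwo num)
open Pool.Agent.Results.MP_03e5d0_nt.FullClassX49 (AnalyticRankZero Pattern tw c)

/-- `n` is an inert product: it is squarefree and all its prime factors are `≡ 1 mod 4` and inert in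
`ℚ(√-7)` -/
def InertProduct (n : ℕ) : Prop :=
  Squarefree n ∧ ∀ p ∈ n.primeFactors, p % 4 = 1 ∧ (p % 7 = 3 ∨ p % 7 = 5 ∨ p % 7 = 6)

open Classical in
/-- The inert products with the property `Q` have the natural density `δ` among all the inert
products. -/
def HasDensity (Q : ℕ → Prop) (δ : ℝ) : Prop :=
  Tendsto (fun X : ℕ => (((Finset.Icc 1 X).filter fun n => InertProduct n ∧ Q n).card : ℝ) /
    (((Finset.Icc 1 X).filter InertProduct).card : ℝ)) atTop (𝓝 δ)

/-- the number of the prime factors of `D` which split in `ℚ(√-7)` -/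
def nsplit (D : ℕ) : ℕ := (D.primeFactors.filter fun p => p % 7 = 1 ∨ p % 7 = 2 ∨ p % 7 = 4).card

section proof

open Finset
open scoped Classical
open Pool.Agent.R413.SQ
open Pool.Agent.J4H77.GF
open Pool.Agent.Y703.CQ (nr c2)
open Pool.Agent.Y698.SG (n4)
open Pool.Agent.Results.MP_4a9ea6_nt.TwoPartTwistsX49 (Adm mat)
open Pool.Agent.Results.MP_03e5d0_nt.FullClassX49 (sel_det an_of pat_iff)

theorem ine_iff {p : ℕ} (hp : p.Prime) :
    (p % 4 = 1 ∧ (p % 7 = 3 ∨ p % 7 = 5 ∨ p % 7 = 6)) ↔ Ine p := by
  unfold Ine R413.SQ.mk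
  refine and_congr_right fun h4 => ?_
  have h7 : p % 7 ≠ 0 := by
    intro h
    have h1 := (Nat.prime_dvd_prime_iff_eq (by norm_num) hp).1 (Nat.dvd_of_mod_eq_zero h)
    omega
  have h8 : p % 7 < 7 := Nat.mod_lt _ (by norm_num)
  constructor
  · intro h
    rw [if_neg (by omega)]
    norm_num
  · intro h
    by_cases h9 : p % 7 = 1 ∨ p % 7 = 2 ∨ p % 7 = 4
    · rw [if_pos h9] at h
      exact absurd rfl h
    · omega

theorem inp_iff {n : ℕ} : InertProduct n ↔ InP n := by
  unfold InertProduct InP
  exact and_congr_right fun _ => forall_congr' fun p => forall_congr' fun hp =>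
    ine_iff (Nat.prime_of_mem_primeFactors hp)

theorem fam_inp {n : ℕ} (hn : InertProduct n) : Family n := ⟨hn.1, fun p hp => (hn.2 p hp).1⟩

theorem fam_tw {D n : ℕ} (hD : Family D) (hn : InertProduct n) : Family (tw D n) ∧
    (tw D n).primeFactors = symmDiff D.primeFactors n.primeFactors := by
  refine ⟨Joint.adm_tw hD (fam_inp hn), ?_⟩
  have h1 := Joint.tw_pf (M := D) (D := n) hD (fam_inp hn)
  rw [symmDiff_comm]
  exact h1

theorem pattern_iff {T V : Finset ℕ} (hT : ∀ M ∈ T, Family M) (hV : V ⊆ T) {D n : ℕ}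
    (hD : Family D) (hn : InertProduct n) :
    Pattern T V (tw D n) ↔ Ev T V (fun u => n4 u + sy n u) D.primeFactors := by
  obtain ⟨h1, h2⟩ := fam_tw hD hn
  rw [pat_iff hT hV h1]
  have key : ∀ M ∈ T, ((mat (Joint.tw M (tw D n))).det ≠ 0 ↔
      Gd (fun u => n4 u + sy n u) (symmDiff D.primeFactors M.primeFactors)) := by
    intro M hM
    rw [Joint.det_tw (hT M hM) h1, h2, symmDiff_right_comm, gd_prod (inp_iff.1 hn)]
  unfold Ev
  constructor
  · intro h
    refine ⟨fun M hM => (key M (hV hM)).1 ((h M (hV hM)).2 hM), fun M hM => ?_⟩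
    obtain ⟨h3, h4⟩ := mem_sdiff.1 hM
    exact fun h5 => h4 ((h M h3).1 ((key M h3).2 h5))
  · rintro ⟨h3, h4⟩ M hM
    constructor
    · intro h5
      by_contra h6
      exact h4 M (mem_sdiff.2 ⟨hM, h6⟩) ((key M hM).1 h5)
    · intro h5
      exact (key M hM).2 (h3 M h5)

theorem rank_iff {D n : ℕ} (hD : Family D) (hn : InertProduct n) :
    RankZeroShaTwo (tw D n) ↔ Gd (fun u => n4 u + sy n u) D.primeFactors := by
  obtain ⟨h1, h2⟩ := fam_tw hD hn
  rw [sel_det h1, Cor.det_iff h1, h2, gd_prod (inp_iff.1 hn)]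

theorem spU {S : Finset ℕ} (hS : ∀ p ∈ S, p.Prime ∧ p % 4 = 1) : SpU (sp S) := by
  intro u hu
  obtain ⟨h1, h2⟩ := mem_sp.1 hu
  exact ⟨(hS u h1).1, (hS u h1).2, h2⟩

theorem fam_pr {D : ℕ} (hD : Family D) : ∀ p ∈ D.primeFactors, p.Prime ∧ p % 4 = 1 :=
  fun p hp => ⟨Nat.prime_of_mem_primeFactors hp, hD.2 p hp⟩

/-- from the counts to densities -/
theorem to_dens {Q R : ℕ → Prop} {δ : ℝ} (h : ∀ n, InertProduct n → (Q n ↔ R n))
    (hl : Tendsto (fun N : ℕ => (((Icc 1 N).filter fun n => InP n ∧ R n).card : ℝ) /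
      (((Icc 1 N).filter InP).card : ℝ)) atTop (𝓝 δ)) : HasDensity Q δ := by
  unfold HasDensity
  refine hl.congr fun x => ?_
  refine congrArg₂ (· / ·) (congrArg (Nat.cast : ℕ → ℝ) (congrArg Finset.card
    (Finset.ext fun n => ?_))) (congrArg (Nat.cast : ℕ → ℝ) (congrArg Finset.card
    (Finset.ext fun n => ?_)))
  · simp only [mem_filter]
    refine and_congr_right fun _ => ?_
    rw [inp_iff]
    exact and_congr_right fun hi => (h n (inp_iff.2 hi)).symm
  · simp only [mem_filter, inp_iff]

theorem dens_pattern {T V : Finset ℕ} (hT : ∀ M ∈ T, Family M) (hV : V ⊆ T) {D : ℕ}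
    (hD : Family D) : HasDensity (fun n => Pattern T V (tw D n))
      (av (JJ T D.primeFactors) (aa T V n4 D)) := by
  refine to_dens (R := fun n => Ev T V (fun u => n4 u + sy n u) D.primeFactors)
    (fun n hn => pattern_iff hT hV hD hn) ?_
  have hU : SpU (JJ T D.primeFactors) := by
    unfold JJ
    refine spU fun p hp => ?_
    rcases mem_union.1 hp with hp | hp
    · exact fam_pr hD p hp
    · obtain ⟨M, hM, hp⟩ := mem_biUnion.1 hp
      exact fam_pr (hT M hM) p hp
  exact densP hU (P := fun f => Ev T V (fun u => n4 u + f u) D.primeFactors)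
    (fun f g hfg => ev_congr hV fun p hp => by rw [hfg p hp])

theorem dens_rank {D : ℕ} (hD : Family D) : ∃ N : ℕ, 0 < N ∧
    HasDensity (fun n => RankZeroShaTwo (tw D n)) (N / 2 ^ nsplit D) := by
  set U := sp D.primeFactors with hU'
  have hU : SpU U := spU (fam_pr hD)
  refine ⟨(U.powerset.filter fun B => Gd (fun u => n4 u + ind B u) D.primeFactors).card, ?_, ?_⟩
  · obtain ⟨B, hB, h⟩ := exists_gd n4 D.primeFactors
    rw [card_pos]
    exact ⟨B, mem_filter.2 ⟨mem_powerset.2 hB, h⟩⟩
  · have h1 := densP hU (P := fun f => Gd (fun u => n4 u + f u) D.primeFactors)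
      (fun f g hfg => gd_congr fun p hp hm => by rw [hfg p (mem_sp.2 ⟨hp, hm⟩)])
    have h2 : U.card = nsplit D := by
      rw [hU']
      unfold sp nsplit R413.SQ.mk
      congr 1
      refine Finset.ext fun p => ?_
      simp only [mem_filter]
      refine and_congr_right fun _ => ?_
      constructor
      · intro h
        by_contra h9
        rw [if_neg h9] at h
        exact absurd h (by norm_num)
      · intro h9
        rw [if_pos h9]
    unfold av at h1
    rw [sum_boole, h2] at h1
    exact to_dens (fun n hn => rank_iff hD hn) h1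

/-- many inert primes -/
theorem exists_r (T : Finset ℕ) (hT : ∀ M ∈ T, Family M) (m : ℕ) : ∃ r : Fin m → ℕ,
    Msk T m r := by
  set E := T.biUnion Nat.primeFactors with hE
  have hinf : {p : ℕ | p.Prime ∧ Ine p ∧ p ∉ E}.Infinite := by
    refine Set.infinite_of_forall_exists_gt fun n => ?_
    obtain ⟨p, hp1, hp2, hp3⟩ := Nat.forall_exists_prime_gt_and_eq_mod (q := 28) (a := 5)
      (by decide) (max n (E.sup id))
    have h28 : p % 28 = 5 := by
      have h1 : ((p : ℕ) : ZMod 28) = ((5 : ℕ) : ZMod 28) := by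
        rw [hp3]
        rfl
      rw [ZMod.natCast_eq_natCast_iff] at h1
      exact h1
    refine ⟨p, ⟨hp2, ⟨by omega, ?_⟩, fun h => ?_⟩, lt_of_le_of_lt (le_max_left _ _) hp1⟩
    · unfold R413.SQ.mk
      rw [if_neg (by omega)]
      norm_num
    · have h2 : p ≤ E.sup id := Finset.le_sup (f := id) h
      have h3 := lt_of_le_of_lt (le_max_right n _) hp1
      omega
  set e := hinf.natEmbedding with he
  refine ⟨fun i => (e i : ℕ), ⟨fun M hM => hT M hM, ?_, fun i => ?_, fun i M hM h => ?_⟩⟩
  · intro i j hij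
    have h1 : e (i : ℕ) = e (j : ℕ) := Subtype.ext hij
    exact Fin.ext (e.injective h1)
  · obtain ⟨h1, h2, h3⟩ := (e i).2
    exact ⟨h1, h2.1, h2.2⟩
  · obtain ⟨h1, h2, h3⟩ := (e i).2
    exact h3 (mem_biUnion.2 ⟨M, hM, h⟩)

theorem almost {T V : Finset ℕ} (hT : ∀ M ∈ T, Family M) (hV : V ⊆ T) {ε : ℝ} (hε : 0 < ε) :
    Tendsto (fun X : ℕ => (num (fun D => ∃ δ : ℝ,
      |δ - c ^ V.card * (1 - c) ^ (T.card - V.card)| < ε ∧
      HasDensity (fun n => Pattern T V (tw D n)) δ) X : ℝ) / (num (fun _ => True) X : ℝ)) atTop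
      (𝓝 1) := by
  have hcc : c2 = c := rfl
  have hc1 : 0.4194 < c := Pool.Agent.Y948.CQ.t_C2.2.2.2.1
  have hc2 : c < 0.4195 := Pool.Agent.Y948.CQ.t_C2.2.2.2.2
  set κ : ℝ := c ^ V.card * (1 - c) ^ (T.card - V.card) with hκ
  have hκ' : c2 ^ V.card * (1 - c2) ^ (T \ V).card = κ := by
    rw [hcc, card_sdiff_of_subset hV]
  have hk0 : 0 ≤ κ := by
    have k1 : 0 < c := by linarith
    have k2 : 0 < 1 - c := by linarith
    positivity
  have hk1 : κ ≤ 1 := by
    refine mul_le_one₀ (pow_le_one₀ (by linarith) (by linarith)) ?_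
      (pow_le_one₀ (by linarith) (by linarith))
    have k2 : 0 < 1 - c := by linarith
    positivity
  have hcon := conc (cls := cls) (J := fun D => JJ T D.primeFactors) (a := aa T V n4) hk0 hk1
    (fun D => aa_dep hV n4 D) (fun D f => by unfold aa; split_ifs <;> norm_num)
    (fun D f => by unfold aa; split_ifs <;> norm_num) (fun m hm => by
      obtain ⟨r, hr⟩ := exists_r T hT m
      refine ⟨fun i p => nr p (r i), fun f => ?_⟩
      have h1 := second hV hm hr n4 f
      rw [hκ'] at h1
      exact h1)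
  have hcls : ∀ X, ∀ D ∈ cls X, Family D := by
    intro X D hD
    obtain ⟨-, h1⟩ := mem_filter.1 hD
    exact (Cor.cl_iff D).2 h1
  have hnum : ∀ X, (num (fun _ => True) X : ℝ) = ((cls X).card : ℝ) := by
    intro X
    unfold num cls
    refine congrArg (Nat.cast : ℕ → ℝ) (congrArg Finset.card (Finset.ext fun D => ?_))
    simp only [mem_filter, and_true]
    exact and_congr_right fun _ => Cor.cl_iff D
  set G : ℕ → Prop := fun D => ∃ δ : ℝ, |δ - κ| < ε ∧ HasDensity (fun n => Pattern T V (tw D n)) δ
    with hG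
  have hle : ∀ X, num G X ≤ (cls X).card := by
    intro X
    unfold num cls
    refine card_le_card fun D hD => ?_
    simp only [mem_filter] at hD ⊢
    exact ⟨hD.1, (Cor.cl_iff D).1 hD.2.1⟩
  have hge : ∀ X, ((cls X).card : ℝ) - (∑ D ∈ cls X,
      (av (JJ T D.primeFactors) (aa T V n4 D) - κ) ^ 2) / ε ^ 2 ≤ (num G X : ℝ) := by
    intro X
    have h1 : num G X = ((cls X).filter G).card := by
      unfold num cls
      refine congrArg Finset.card (Finset.ext fun D => ?_)
      simp only [mem_filter]
      have h2 : Family D ↔ Squarefree D ∧ Cl ∅ ∅ D.primeFactors := Cor.cl_iff D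
      rw [h2]
      tauto
    have h2 := Finset.card_filter_add_card_filter_not (s := cls X) G
    have h3 : (((cls X).filter fun D => ¬ G D).card : ℝ) * ε ^ 2 ≤ ∑ D ∈ cls X,
        (av (JJ T D.primeFactors) (aa T V n4 D) - κ) ^ 2 := by
      calc (((cls X).filter fun D => ¬ G D).card : ℝ) * ε ^ 2
          = ∑ _D ∈ (cls X).filter fun D => ¬ G D, ε ^ 2 := by rw [sum_const, nsmul_eq_mul]
        _ ≤ ∑ D ∈ (cls X).filter fun D => ¬ G D,
            (av (JJ T D.primeFactors) (aa T V n4 D) - κ) ^ 2 := by
            refine sum_le_sum fun D hD => ?_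
            obtain ⟨h4, h5⟩ := mem_filter.1 hD
            have h6 : ε ≤ |av (JJ T D.primeFactors) (aa T V n4 D) - κ| := by
              by_contra h7
              exact h5 ⟨_, not_le.1 h7, dens_pattern hT hV (hcls X D h4)⟩
            rw [← sq_abs (av (JJ T D.primeFactors) (aa T V n4 D) - κ)]
            exact pow_le_pow_left₀ hε.le h6 2
        _ ≤ _ := sum_le_sum_of_subset_of_nonneg (filter_subset _ _) fun D _ _ => sq_nonneg _
    have h4 : (((cls X).filter fun D => ¬ G D).card : ℝ) ≤ (∑ D ∈ cls X,
        (av (JJ T D.primeFactors) (aa T V n4 D) - κ) ^ 2) / ε ^ 2 := by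
      rw [le_div_iff₀ (by positivity)]
      exact h3
    rw [h1]
    have h5 : ((cls X).card : ℝ) = (((cls X).filter G).card : ℝ) +
        (((cls X).filter fun D => ¬ G D).card : ℝ) := by exact_mod_cast h2.symm
    linarith
  have hlow : Tendsto (fun X => 1 - (∑ D ∈ cls X,
      (av (JJ T D.primeFactors) (aa T V n4 D) - κ) ^ 2) / ((cls X).card : ℝ) / ε ^ 2) atTop
      (𝓝 1) := by
    have h1 := (hcon.div_const (ε ^ 2)).const_sub 1
    simpa using h1
  refine tendsto_of_tendsto_of_tendsto_of_le_of_le' hlow tendsto_const_nhds ?_ ?_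
  · filter_upwards [eventually_ge_atTop 1] with X hX
    have hc : (0 : ℝ) < ((cls X).card : ℝ) := by exact_mod_cast cls_pos hX
    rw [hnum, le_div_iff₀ hc]
    refine le_trans (le_of_eq ?_) (hge X)
    field_simp
  · refine Eventually.of_forall fun X => ?_
    rw [hnum]
    exact div_le_one_of_le₀ (by exact_mod_cast hle X) (Nat.cast_nonneg _)

end proof

theorem result :
    (∀ D : ℕ, Family D →
      (∀ n : ℕ, InertProduct n → Family (tw D n) ∧ D * n = tw D n * Nat.gcd D n ^ 2 ∧
        (RankZeroShaTwo (tw D n) → AnalyticRankZero (tw D n))) ∧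
      ∃ N : ℕ, 0 < N ∧ HasDensity (fun n => RankZeroShaTwo (tw D n)) (N / 2 ^ nsplit D)) ∧
    (∀ T V : Finset ℕ, (∀ M ∈ T, Family M) → V ⊆ T →
      (∀ D : ℕ, Family D → ∃ δ : ℝ, HasDensity (fun n => Pattern T V (tw D n)) δ) ∧
      ∀ ε : ℝ, 0 < ε → Tendsto (fun X : ℕ => (num (fun D => ∃ δ : ℝ,
        |δ - c ^ V.card * (1 - c) ^ (T.card - V.card)| < ε ∧
        HasDensity (fun n => Pattern T V (tw D n)) δ) X : ℝ) / (num (fun _ => True) X : ℝ)) atTop
        (𝓝 1)) ∧
    0.4194 < c ∧ c < 0.4195 := by
  refine ⟨fun D hD => ⟨fun n hn => ?_, dens_rank hD⟩, fun T V hT hV => ⟨fun D hD =>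
    ⟨_, dens_pattern hT hV hD⟩, fun ε hε => almost hT hV hε⟩, Pool.Agent.Y948.CQ.t_C2.2.2.2.1,
    Pool.Agent.Y948.CQ.t_C2.2.2.2.2⟩
  obtain ⟨h1, -⟩ := fam_tw hD hn
  exact ⟨h1, (Pool.Agent.R413.SQ.Joint.ac_tw hD (fam_inp hn)).2, fun h =>
    Pool.Agent.Results.MP_03e5d0_nt.FullClassX49.an_of h1
    ((Pool.Agent.Results.MP_03e5d0_nt.FullClassX49.sel_det h1).1 h)⟩

end Pool.Agent.Results.MP_03e5d0_nt.InertTwistsX49
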