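import Pool.Agent.Results.MP_03e5d0_nt.PrimeTwistsX49
import Pool.Agent.Results.MP_03e5d0_nt.InertTwistsX49
import Pool.Agent.J4H77.GF.Gp

/-!
# The exact densities of analytic rank zero among the inert twists of the family of `X_0(49)`

The class consists of the squarefree `D ≥ 1` with all prime factors `≡ 1 mod 4`, and `E_D` is the
quadratic twist by `D` of `X_0(49) : y² + x y = x³ - x² - 2 x - 1`. For `D` in the class let
`p_1 < ... < p_k` be the prime factors of `D` which split in `ℚ(√-7)`, and let `R_D` be the symmetric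
`k × k` matrix over `𝔽₂` with zero diagonal whose entry `(i, j)`, `i ≠ j`, is `1` exactly if `p_j` is not
a square modulo `p_i`. For a matrix `G` let `𝖯(G)` be the proportion of the diagonals `g ∈ 𝔽₂^k` such that
`G + diag(g)` is nonsingular.

* For EVERY `D` of the class the inert primes `p` such that the twist of `E_D` by `p` has finitely many
  rational points and no element of order two in `Ш` have the natural density `𝖯(R_D)`, and so have the
  inert products `n` such that the twist of `E_D` by `n` has this property. For all these twists the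
  analytic rank is zero.
* For every symmetric `G` of size `k` with zero diagonal `2^{-k} ≤ 𝖯(G) ≤ (2 + (-1/2)^k) / 3`, with
  equality on the left exactly for `G = 0`, and on the right for the path. So the density is `1` if no
  prime factor of `D` splits, and it is at most `3/4` otherwise.
* Every such `G`, `k ≥ 1`, occurs: `G = R_D` up to the names of the sizes, so that both densities of `D` are
  `𝖯(G)`, for infinitely many `D` which are products of `k` primes `≡ 1 mod 28`. Thus the densities of the
  `D` with `k` split prime factors are exactly the numbers `𝖯(G)`.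
-/

set_option autoImplicit false

open Filter Topology

namespace Pool.Agent.Results.MP_03e5d0_nt.ExactDensitiesX49

open Pool.Agent.Results.MP_92892c_nt.FullClassTwoPartX49 (Family RankZeroShaTwo)
open Pool.Agent.Results.MP_03e5d0_nt.FullClassX49 (AnalyticRankZero tw)
open Pool.Agent.Results.MP_03e5d0_nt.PrimeTwistsX49 (Inert)
open Pool.Agent.Results.MP_03e5d0_nt.InertTwistsX49 (InertProduct)

/-- the prime factors of `D` which split in `ℚ(√-7)` -/
def split (D : ℕ) : Finset ℕ := D.primeFactors.filter fun p => p % 7 = 1 ∨ p % 7 = 2 ∨ p % 7 = 4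

/-- the split prime factors of `D` in increasing order -/
def spr (D : ℕ) (i : Fin (split D).card) : ℕ := (split D).orderEmbOfFin rfl i

open Classical in
/-- the matrix of the residue symbols: the entry `(i, j)` is `0` if `i = j` or if the `j`-th split prime
factor is a square modulo the `i`-th one, and `1` otherwise -/
noncomputable def resMat (D : ℕ) : Matrix (Fin (split D).card) (Fin (split D).card) (ZMod 2) :=
  Matrix.of fun i j => if i = j ∨ IsSquare ((spr D j : ℕ) : ZMod (spr D i)) then 0 else 1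

open Classical in
/-- the proportion of the diagonals which make the matrix nonsingular -/
noncomputable def proportion {n : ℕ} (G : Matrix (Fin n) (Fin n) (ZMod 2)) : ℝ :=
  ((Finset.univ.filter fun g : Fin n → ZMod 2 => (G + Matrix.diagonal g).det ≠ 0).card : ℝ) / 2 ^ n

/-- The twists of `E_D` by inert primes, and those by inert products, which have finitely many points and
no element of order two in `Ш`, have the density `δ`. -/
def BothDensities (D : ℕ) (δ : ℝ) : Prop :=
  PrimeTwistsX49.HasDensity (fun p => RankZeroShaTwo (D * p)) δ ∧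
  InertTwistsX49.HasDensity (fun n => RankZeroShaTwo (tw D n)) δ

/-- the matrix of the path with `n` vertices -/
def path (n : ℕ) : Matrix (Fin n) (Fin n) (ZMod 2) :=
  Matrix.of fun i j => if (i : ℕ) + 1 = j ∨ (j : ℕ) + 1 = i then 1 else 0

section proof

open Finset
open scoped Classical
open Pool.Agent.R413.SQ
open Pool.Agent.J4H77.GF
open Pool.Agent.Y703.CQ (nr c2)
open Pool.Agent.Y698.SG (n4)

theorem sp_split (D : ℕ) : sp D.primeFactors = split D := by
  unfold sp split R413.SQ.mk
  refine Finset.ext fun p => ?_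
  simp only [mem_filter]
  refine and_congr_right fun _ => ?_
  constructor
  · intro h
    by_contra h9
    rw [if_neg h9] at h
    exact absurd h (by norm_num)
  · intro h9
    rw [if_pos h9]

theorem both {D : ℕ} (hD : Family D) {n : ℕ} (e : Fin n → ℕ) (he : Function.Injective e)
    (hU : univ.image e = split D) :
    BothDensities D (proportion (Matrix.of fun i j => if i = j then 0 else nr (e i) (e j))) := by
  set U := sp D.primeFactors with hU'
  have hSU : SpU U := PrimeTwistsX49.spU (PrimeTwistsX49.fam_pr hD)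
  have hc : U.card = n := by
    rw [hU', sp_split, ← hU, card_image_of_injective _ he, card_univ, Fintype.card_fin]
  have hgc := gd_card e he (S := D.primeFactors) (by rw [sp_split]; exact hU) n4
  have hpr : proportion (Matrix.of fun i j => if i = j then 0 else nr (e i) (e j)) =
      av U fun f => if Gd (fun u => n4 u + f u) D.primeFactors then 1 else 0 := by
    unfold av proportion
    rw [sum_boole, hc, hU', hgc]
    rfl
  have hP : ∀ f g : ℕ → ZMod 2, (∀ u ∈ U, f u = g u) →
      (Gd (fun u => n4 u + f u) D.primeFactors ↔ Gd (fun u => n4 u + g u) D.primeFactors) :=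
    fun f g hfg => gd_congr fun p hp hm => by rw [hfg p (mem_sp.2 ⟨hp, hm⟩)]
  rw [hpr]
  exact ⟨PrimeTwistsX49.to_dens hD.1.ne_zero (fun p hp hpD => PrimeTwistsX49.rank_iff hD hp hpD)
    (dens hSU (P := fun f => Gd (fun u => n4 u + f u) D.primeFactors) hP),
    InertTwistsX49.to_dens (fun n hn => InertTwistsX49.rank_iff hD hn)
    (densP hSU (P := fun f => Gd (fun u => n4 u + f u) D.primeFactors) hP)⟩

theorem spr_spec (D : ℕ) : Function.Injective (spr D) ∧ univ.image (spr D) = split D := by
  refine ⟨fun i j h => ((split D).orderEmbOfFin rfl).injective h, ?_⟩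
  ext p
  rw [mem_image]
  constructor
  · rintro ⟨i, -, rfl⟩
    exact orderEmbOfFin_mem _ rfl i
  · intro hp
    have h2 : p ∈ Set.range ((split D).orderEmbOfFin rfl) := by
      rw [range_orderEmbOfFin]
      exact hp
    obtain ⟨i, hi⟩ := h2
    exact ⟨i, mem_univ i, hi⟩

theorem resMat_eq (D : ℕ) :
    resMat D = Matrix.of fun i j => if i = j then 0 else nr (spr D i) (spr D j) := by
  ext i j
  unfold resMat nr
  simp only [Matrix.of_apply]
  by_cases h : i = j
  · rw [if_pos (Or.inl h), if_pos h]
  · rw [if_neg h]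
    by_cases h2 : IsSquare ((spr D j : ℕ) : ZMod (spr D i))
    · rw [if_pos (Or.inr h2), if_pos h2]
    · rw [if_neg fun h' => h'.elim h h2, if_neg h2]

theorem spr_pr {D : ℕ} (hD : Family D) (i : Fin (split D).card) :
    (spr D i).Prime ∧ spr D i % 4 = 1 := by
  have h1 : spr D i ∈ split D := orderEmbOfFin_mem _ rfl i
  exact PrimeTwistsX49.fam_pr hD _ (mem_filter.1 h1).1

theorem resMat_symm {D : ℕ} (hD : Family D) : (resMat D).IsSymm := by
  rw [resMat_eq]
  refine Matrix.IsSymm.ext fun i j => ?_
  simp only [Matrix.of_apply]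
  by_cases h : i = j
  · rw [if_pos h, if_pos h.symm]
  · rw [if_neg h, if_neg (Ne.symm h), nr_symm' (spr_pr hD j).1 (spr_pr hD j).2 (spr_pr hD i).1
      (spr_pr hD i).2]

theorem resMat_diag (D : ℕ) (i : Fin (split D).card) : resMat D i i = 0 := by
  rw [resMat_eq]
  simp only [Matrix.of_apply, if_true]

theorem prop_mc {n : ℕ} (G : Matrix (Fin n) (Fin n) (ZMod 2)) :
    proportion G = (Mc G : ℝ) / 2 ^ n := rfl

theorem prop_ge {n : ℕ} (G : Matrix (Fin n) (Fin n) (ZMod 2)) (h0 : ∀ i, G i i = 0) :
    (1 / 2 : ℝ) ^ n ≤ proportion G := by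
  rw [prop_mc, div_pow, one_pow]
  have h1 : (1 : ℝ) ≤ Mc G := by exact_mod_cast Mc_pos G h0
  gcongr

theorem prop_le {n : ℕ} (G : Matrix (Fin n) (Fin n) (ZMod 2)) (h0 : ∀ i, G i i = 0)
    (hs : G.IsSymm) : proportion G ≤ (2 + (-1 / 2 : ℝ) ^ n) / 3 := by
  rw [prop_mc, ← sj_real]
  have h1 : (Mc G : ℝ) ≤ sj n := by exact_mod_cast Mc_le G h0 hs
  gcongr

theorem prop_eq {n : ℕ} (G : Matrix (Fin n) (Fin n) (ZMod 2)) (h0 : ∀ i, G i i = 0)
    (hs : G.IsSymm) : proportion G = (1 / 2 : ℝ) ^ n ↔ G = 0 := by
  rw [prop_mc, div_pow, one_pow, div_left_inj' (by positivity : (2 : ℝ) ^ n ≠ 0)]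
  constructor
  · intro h
    by_contra hG
    have h1 : (3 : ℝ) ≤ Mc G := by exact_mod_cast Mc_three G h0 hs hG
    linarith
  · rintro rfl
    exact_mod_cast Mc_zero n

theorem prop_one {n : ℕ} {G : Matrix (Fin n) (Fin n) (ZMod 2)} (h0 : ∀ i, G i i = 0)
    (hs : G.IsSymm) (hn : n = 0) : proportion G = 1 := by
  subst hn
  refine le_antisymm ((prop_le G h0 hs).trans (by norm_num)) ?_
  simpa using prop_ge G h0

theorem prop_34 {n : ℕ} {G : Matrix (Fin n) (Fin n) (ZMod 2)} (h0 : ∀ i, G i i = 0)
    (hs : G.IsSymm) (hn : 0 < n) : proportion G ≤ 3 / 4 := by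
  refine (prop_le G h0 hs).trans ?_
  have h1 : (-1 / 2 : ℝ) ^ n ≤ 1 / 4 := by
    obtain ⟨m, rfl⟩ : ∃ m, n = m + 1 := ⟨n - 1, by omega⟩
    rcases m with _ | m
    · norm_num
    · have h2 : |(-1 / 2 : ℝ) ^ m| ≤ 1 := by
        rw [abs_pow]
        exact pow_le_one₀ (abs_nonneg _) (by rw [abs_le]; constructor <;> norm_num)
      have h3 := (le_abs_self _).trans h2
      rw [show m + 1 + 1 = m + 2 from rfl, pow_add]
      linarith [show (-1 / 2 : ℝ) ^ 2 = 1 / 4 by norm_num, mul_le_mul_of_nonneg_right h3
        (show (0 : ℝ) ≤ (-1 / 2 : ℝ) ^ 2 by norm_num)]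
  linarith

theorem prop_path (n : ℕ) : proportion (path n) = (2 + (-1 / 2 : ℝ) ^ n) / 3 := by
  rw [prop_mc, ← sj_real]
  have h1 : Mc (path n) = sj n := Mc_path n
  rw [h1]

theorem path_symm (n : ℕ) : (path n).IsSymm ∧ ∀ i, path n i i = 0 := by
  constructor
  · refine Matrix.IsSymm.ext fun i j => ?_
    unfold path
    simp only [Matrix.of_apply, or_comm]
  · intro i
    unfold path
    simp only [Matrix.of_apply]
    rw [if_neg (by omega)]

theorem occurs {n : ℕ} (hn : 1 ≤ n) (G : Matrix (Fin n) (Fin n) (ZMod 2)) (h0 : ∀ i, G i i = 0)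
    (hs : G.IsSymm) (X : ℕ) : ∃ D : ℕ, X < D ∧ Family D ∧ (∀ p ∈ D.primeFactors, p % 28 = 1) ∧
      (split D).card = n ∧ BothDensities D (proportion G) := by
  obtain ⟨e, he, hp, hr⟩ := realize X n G hs
  set U : Finset ℕ := univ.image e with hU
  set D : ℕ := ∏ u ∈ U, u with hD
  have hUp : ∀ u ∈ U, u.Prime ∧ X < u ∧ u % 28 = 1 := by
    intro u hu
    obtain ⟨i, -, rfl⟩ := mem_image.1 hu
    exact hp i
  have hpf : D.primeFactors = U := by
    rw [hD]
    exact Nat.primeFactors_prod fun u hu => (hUp u hu).1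
  have hfam : Family D := by
    refine ⟨?_, fun p hp' => ?_⟩
    · rw [hD]
      refine Finset.squarefree_prod_of_pairwise_isCoprime ?_ fun u hu => (hUp u hu).1.prime.squarefree
      intro u hu v hv huv
      rw [Function.onFun, ← Nat.coprime_iff_isRelPrime]
      exact (Nat.coprime_primes (hUp u hu).1 (hUp v hv).1).2 huv
    · rw [hpf] at hp'
      have h1 := (hUp p hp').2.2
      omega
  have hspl : split D = U := by
    unfold split
    rw [hpf, filter_eq_self]
    intro u hu
    have h1 := (hUp u hu).2.2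
    left
    omega
  refine ⟨D, ?_, hfam, fun p hp' => (hUp p (hpf ▸ hp')).2.2, ?_, ?_⟩
  · have hu : e ⟨0, hn⟩ ∈ U := mem_image_of_mem e (mem_univ _)
    have h1 : e ⟨0, hn⟩ ∣ D := dvd_prod_of_mem (fun u => u) hu
    exact lt_of_lt_of_le (hUp _ hu).2.1 (Nat.le_of_dvd (Nat.pos_of_ne_zero hfam.1.ne_zero) h1)
  · rw [hspl, hU, card_image_of_injective _ he.injective, card_univ, Fintype.card_fin]
  · have h1 := both hfam e he.injective (by rw [hspl])
    have h2 : (Matrix.of fun i j => if i = j then 0 else nr (e i) (e j)) = G := by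
      ext i j
      simp only [Matrix.of_apply]
      by_cases h : i = j
      · rw [if_pos h, h, h0]
      · rw [if_neg h, hr i j h]
    rw [h2] at h1
    exact h1

end proof

theorem result :
    (∀ D : ℕ, Family D → (resMat D).IsSymm ∧ (∀ i, resMat D i i = 0) ∧
      BothDensities D (proportion (resMat D)) ∧
      (split D = ∅ → proportion (resMat D) = 1) ∧ (split D ≠ ∅ → proportion (resMat D) ≤ 3 / 4) ∧
      (∀ p : ℕ, Inert p → ¬ p ∣ D → RankZeroShaTwo (D * p) → AnalyticRankZero (D * p)) ∧
      ∀ n : ℕ, InertProduct n → RankZeroShaTwo (tw D n) → AnalyticRankZero (tw D n)) ∧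
    (∀ (n : ℕ) (G : Matrix (Fin n) (Fin n) (ZMod 2)), G.IsSymm → (∀ i, G i i = 0) →
      (1 / 2 : ℝ) ^ n ≤ proportion G ∧ proportion G ≤ (2 + (-1 / 2 : ℝ) ^ n) / 3 ∧
      (proportion G = (1 / 2 : ℝ) ^ n ↔ G = 0) ∧
      (1 ≤ n → ∀ X : ℕ, ∃ D : ℕ, X < D ∧ Family D ∧ (∀ p ∈ D.primeFactors, p % 28 = 1) ∧
        (split D).card = n ∧ BothDensities D (proportion G))) ∧
    ∀ n : ℕ, ((path n).IsSymm ∧ ∀ i, path n i i = 0) ∧
      proportion (path n) = (2 + (-1 / 2 : ℝ) ^ n) / 3 := by
  refine ⟨fun D hD => ⟨resMat_symm hD, resMat_diag D, ?_, fun h => prop_one (resMat_diag D)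
      (resMat_symm hD) (by rw [h, Finset.card_empty]), fun h => prop_34 (resMat_diag D)
      (resMat_symm hD) (Finset.card_pos.2 (Finset.nonempty_iff_ne_empty.2 h)),
      fun p hp hpD h => ?_, fun n hn h => ?_⟩,
    fun n G hs h0 => ⟨prop_ge G h0, prop_le G h0 hs, prop_eq G h0 hs, fun hn X =>
      occurs hn G h0 hs X⟩, fun n => ⟨path_symm n, prop_path n⟩⟩
  · have h1 := both hD (spr D) (spr_spec D).1 (spr_spec D).2
    rw [← resMat_eq] at h1
    exact h1
  · exact ((PrimeTwistsX49.result.1 D hD).1 p hp hpD).2 h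
  · exact ((InertTwistsX49.result.1 D hD).1 n hn).2.2 h

end Pool.Agent.Results.MP_03e5d0_nt.ExactDensitiesX49
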