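import Pool.Agent.Results.MP_03e5d0_nt.ExactDensitiesX49
import Pool.Agent.J4H77.GF.Jnt

/-!
# The exact joint law of the inert twists of finitely many curves of the family of `X_0(49)`

The class consists of the squarefree `D ≥ 1` with all prime factors `≡ 1 mod 4`, and `E_D` is the
quadratic twist by `D` of `X_0(49) : y² + x y = x³ - x² - 2 x - 1`. For `D` in the class let
`p_1 < ... < p_k` be the prime factors of `D` which split in `ℚ(√-7)`, let `R_D` be the symmetric `k × k`
matrix over `𝔽₂` with zero diagonal whose entry `(i, j)`, `i ≠ j`, is `1` exactly if `p_j` is not a square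
modulo `p_i`, and let `d_i` be the number of the prime factors of `D` which are not squares modulo `p_i`.

Let `D_1, ..., D_r` be arbitrary elements of the class, `U` the set of their split prime factors and `V` a
set of indices.

* The inert primes `p` for which exactly the twists by `p` of the `E_{D_i}` with `i ∈ V` have finitely many
  rational points and no element of order two in `Ш` have a natural density: it is the proportion of the
  `g : U → 𝔽₂` such that `R_{D_i} + diag (g (p_j) + d_j)` is nonsingular exactly for `i ∈ V`. The inert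
  products `n` have the same property, with the same density.
* If no split prime divides two of the `D_i`, then the events are independent: the density is the product
  of the `𝖯(R_{D_i})`, `i ∈ V`, and of the `1 - 𝖯(R_{D_i})`, `i ∉ V`, where `𝖯(G)` is the proportion of the
  diagonals which make `G` nonsingular. So, if every `D_i` has a split prime factor, all `2^r` sets `V` have
  a positive density, and there is a positive proportion of the `p` for which all the `r` twists have
  analytic rank zero.
* For every `D` of the class and all inert products `s_w`, `w ∈ 𝔽₂^k`, such that `s_w` is a square modulo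
  `p_i` exactly if `w_i = 0` (there are such primes) the following holds for EVERY inert product `n`, not
  only for almost all: exactly `2^k 𝖯(R_D) ≥ 1` of the `2^k` twists of `E_D` by the `s_w n` have finitely many
  rational points and no element of order two in `Ш`. So at least one of them has analytic rank zero. (If
  `D = q` is a split prime, then exactly one of the twists of `E_q` by `n` and `s n` has this property, for
  all `n`, if `s` is not a square modulo `q`. So the condition of the second part cannot be dropped.)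
-/

set_option autoImplicit false

open Filter Topology

namespace Pool.Agent.Results.MP_03e5d0_nt.JointDensitiesX49

open Pool.Agent.Results.MP_92892c_nt.FullClassTwoPartX49 (Family RankZeroShaTwo)
open Pool.Agent.Results.MP_03e5d0_nt.FullClassX49 (AnalyticRankZero tw)
open Pool.Agent.Results.MP_03e5d0_nt.PrimeTwistsX49 (Inert)
open Pool.Agent.Results.MP_03e5d0_nt.InertTwistsX49 (InertProduct)
open Pool.Agent.Results.MP_03e5d0_nt.ExactDensitiesX49 (split spr resMat proportion)

open Classical in
/-- the number modulo two of the prime factors of `D` which are not squares modulo `u` -/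
noncomputable def degree (D u : ℕ) : ZMod 2 :=
  ∑ s ∈ D.primeFactors, if IsSquare ((s : ℕ) : ZMod u) then 0 else 1

/-- the matrix `R_D + diag (g (p_i) + d_i)` -/
noncomputable def diagMat (D : ℕ) (g : ℕ → ZMod 2) :
    Matrix (Fin (split D).card) (Fin (split D).card) (ZMod 2) :=
  resMat D + Matrix.diagonal fun i => g (spr D i) + degree D (spr D i)

/-- the split primes which divide one of the `D i` -/
def splits {r : ℕ} (D : Fin r → ℕ) : Finset ℕ := Finset.univ.biUnion fun i => split (D i)

open Classical in
/-- the proportion of the sets `B` of split primes such that, for the indicator function `g` of `B`, the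
matrix `diagMat (D i) g` is nonsingular exactly for `i ∈ V` -/
noncomputable def joint {r : ℕ} (D : Fin r → ℕ) (V : Finset (Fin r)) : ℝ :=
  (((splits D).powerset.filter fun B => ∀ i,
    (diagMat (D i) fun u => if u ∈ B then 1 else 0).det ≠ 0 ↔ i ∈ V).card : ℝ) / 2 ^ (splits D).card

/-- The inert primes and the inert products, for which exactly the twists of the `E_{D i}`, `i ∈ V`, have
finitely many points and no element of order two in `Ш`, have the density `δ`. -/
def BothJoint {r : ℕ} (D : Fin r → ℕ) (V : Finset (Fin r)) (δ : ℝ) : Prop :=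
  PrimeTwistsX49.HasDensity (fun p => ∀ i, RankZeroShaTwo (D i * p) ↔ i ∈ V) δ ∧
  InertTwistsX49.HasDensity (fun n => ∀ i, RankZeroShaTwo (tw (D i) n) ↔ i ∈ V) δ

/-- `s w`, `w ∈ 𝔽₂^k`, are inert products, and `s w` is a square modulo the `i`-th split prime factor of `D`
exactly if `w i = 0` -/
def Multipliers (D : ℕ) (s : (Fin (split D).card → ZMod 2) → ℕ) : Prop :=
  ∀ w, InertProduct (s w) ∧ ∀ i, (IsSquare ((s w : ℕ) : ZMod (spr D i)) ↔ w i = 0)

open Classical in
/-- the number of the `w` for which the twist of `E_D` by `s w * n` has finitely many rational points and no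
element of order two in `Ш` -/
noncomputable def good (D : ℕ) (s : (Fin (split D).card → ZMod 2) → ℕ) (n : ℕ) : ℕ :=
  (Finset.univ.filter fun w => RankZeroShaTwo (tw (tw D (s w)) n)).card

section proof

open Finset
open scoped Classical
open Pool.Agent.R413.SQ
open Pool.Agent.J4H77.GF
open Pool.Agent.Y703.CQ (nr c2)
open Pool.Agent.Y698.SG (n4)
open ExactDensitiesX49 (sp_split spr_spec resMat_eq resMat_symm resMat_diag prop_ge prop_34 prop_mc)

theorem gd_diag (D : ℕ) (g : ℕ → ZMod 2) : Gd g D.primeFactors ↔ (diagMat D g).det ≠ 0 := by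
  rw [gd_det (spr D) (spr_spec D).1 (by rw [sp_split]; exact (spr_spec D).2)]
  unfold diagMat
  rw [resMat_eq]
  rfl

/-- the event -/
def Evt {r : ℕ} (D : Fin r → ℕ) (V : Finset (Fin r)) (f : ℕ → ZMod 2) : Prop :=
  ∀ i, Gd f (D i).primeFactors ↔ i ∈ V

/-- the indicator of the event -/
noncomputable def hh {r : ℕ} (D : Fin r → ℕ) (V : Finset (Fin r)) (f : ℕ → ZMod 2) : ℝ :=
  if Evt D V f then 1 else 0

theorem splits_sp {r : ℕ} (D : Fin r → ℕ) :
    splits D = univ.biUnion fun i => sp (D i).primeFactors := by
  unfold splits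
  simp only [sp_split]

theorem ev_dep {r : ℕ} (D : Fin r → ℕ) (V : Finset (Fin r)) (f g : ℕ → ZMod 2)
    (hfg : ∀ u ∈ splits D, f u = g u) :
    Evt D V f ↔ Evt D V g := by
  refine forall_congr' fun i => iff_congr (gd_congr fun p hp hm => hfg p ?_) Iff.rfl
  rw [splits_sp]
  exact mem_biUnion.2 ⟨i, mem_univ i, mem_sp.2 ⟨hp, hm⟩⟩

theorem hh_dep {r : ℕ} (D : Fin r → ℕ) (V : Finset (Fin r)) : Dep (splits D) (hh D V) := by
  intro f g hfg
  unfold hh
  rw [if_congr (ev_dep D V f g hfg) rfl rfl]

theorem joint_av {r : ℕ} (D : Fin r → ℕ) (V : Finset (Fin r)) :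
    joint D V = av (splits D) (hh D V) := by
  unfold av joint hh
  rw [sum_boole]
  refine congrArg (· / _) (congrArg (Nat.cast : ℕ → ℝ) (congrArg Finset.card
    (filter_congr fun B _ => forall_congr' fun i => iff_congr ?_ Iff.rfl)))
  rw [gd_diag]
  rfl

theorem spU' {r : ℕ} {D : Fin r → ℕ} (hD : ∀ i, Family (D i)) : SpU (splits D) := by
  intro u hu
  rw [splits_sp] at hu
  obtain ⟨i, -, hi⟩ := mem_biUnion.1 hu
  exact PrimeTwistsX49.spU (PrimeTwistsX49.fam_pr (hD i)) u hi

theorem both {r : ℕ} {D : Fin r → ℕ} (hD : ∀ i, Family (D i)) (V : Finset (Fin r)) :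
    BothJoint D V (joint D V) := by
  have hP : ∀ f g : ℕ → ZMod 2, (∀ u ∈ splits D, f u = g u) →
      (Evt D V (fun u => n4 u + f u) ↔ Evt D V fun u => n4 u + g u) :=
    fun f g hfg => ev_dep D V _ _ fun u hu => by rw [hfg u hu]
  have h1 : joint D V = av (splits D) fun f =>
      if Evt D V (fun u => n4 u + f u) then 1 else 0 := by
    rw [joint_av, ← av_shift (hh_dep D V) n4]
    refine congrArg (av (splits D)) (funext fun f => ?_)
    unfold hh
    have e : (fun p => f p + n4 p) = fun u => n4 u + f u := funext fun u => add_comm _ _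
    rw [e]
  rw [h1]
  refine ⟨PrimeTwistsX49.to_dens (D := ∏ i, D i) (prod_ne_zero_iff.2 fun i _ => (hD i).1.ne_zero)
      (fun p hp hpD => forall_congr' fun i => iff_congr (PrimeTwistsX49.rank_iff (hD i) hp
        fun h => hpD (h.trans (dvd_prod_of_mem D (mem_univ i)))) Iff.rfl)
      (dens (spU' hD) (P := fun f => Evt D V fun u => n4 u + f u) hP),
    InertTwistsX49.to_dens (fun n hn => forall_congr' fun i => iff_congr
        (InertTwistsX49.rank_iff (hD i) hn) Iff.rfl)
      (densP (spU' hD) (P := fun f => Evt D V fun u => n4 u + f u) hP)⟩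

theorem av_one (D : ℕ) : av (sp D.primeFactors) (fun f => if Gd f D.primeFactors then 1 else 0) =
    proportion (resMat D) := by
  have hc : (sp D.primeFactors).card = (split D).card := by rw [sp_split]
  have hgc := gd_card (spr D) (spr_spec D).1 (S := D.primeFactors)
    (by rw [sp_split]; exact (spr_spec D).2) (fun _ => 0)
  simp only [zero_add] at hgc
  unfold av
  rw [sum_boole, prop_mc, hc, resMat_eq]
  refine congrArg (· / _) (congrArg (Nat.cast : ℕ → ℝ) ?_)
  exact hgc

theorem indep {r : ℕ} {D : Fin r → ℕ} (V : Finset (Fin r))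
    (hd : ∀ i j, i ≠ j → Disjoint (split (D i)) (split (D j))) :
    joint D V = ∏ i, if i ∈ V then proportion (resMat (D i)) else 1 - proportion (resMat (D i)) := by
  have h1 : hh D V = fun f => ∏ i, if (Gd f (D i).primeFactors ↔ i ∈ V) then (1 : ℝ) else 0 := by
    funext f
    unfold hh Evt
    rw [prod_boole]
    simp only [mem_univ, true_imp_iff]
    by_cases h : ∀ i, Gd f (D i).primeFactors ↔ i ∈ V
    · rw [if_pos h, if_pos h]
    · rw [if_neg h, if_neg h]
  rw [joint_av, h1, splits_sp, av_prod univ (fun i => sp (D i).primeFactors)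
    (fun i f => if (Gd f (D i).primeFactors ↔ i ∈ V) then (1 : ℝ) else 0) ?_ ?_]
  · refine prod_congr rfl fun i _ => ?_
    rw [← av_one]
    by_cases hi : i ∈ V
    · simp only [hi, iff_true, if_true]
    · simp only [hi, iff_false, if_false]
      unfold av
      have h2 : ∀ B ∈ (sp (D i).primeFactors).powerset, (if ¬ Gd (ind B) (D i).primeFactors then
          (1 : ℝ) else 0) = 1 - if Gd (ind B) (D i).primeFactors then 1 else 0 := by
        intro B _
        by_cases h : Gd (ind B) (D i).primeFactors
        · rw [if_pos h, if_neg (not_not.2 h), sub_self]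
        · rw [if_neg h, if_pos h, sub_zero]
      rw [sum_congr rfl h2, sum_sub_distrib, sum_const, card_powerset, nsmul_eq_mul, mul_one,
        sub_div]
      congr 1
      push_cast
      exact div_self (by positivity)
  · intro i _ f g hfg
    beta_reduce
    rw [if_congr (iff_congr (gd_congr fun p hp hm => hfg p (mem_sp.2 ⟨hp, hm⟩)) Iff.rfl) rfl rfl]
  · intro i _ j _ hij
    rw [sp_split, sp_split]
    exact hd i j hij

theorem joint_pos {r : ℕ} {D : Fin r → ℕ} (hD : ∀ i, Family (D i)) (V : Finset (Fin r))
    (hd : ∀ i j, i ≠ j → Disjoint (split (D i)) (split (D j)))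
    (hV : ∀ i, i ∉ V → split (D i) ≠ ∅) : 0 < joint D V := by
  rw [indep V hd]
  refine prod_pos fun i _ => ?_
  split_ifs with h
  · exact lt_of_lt_of_le (by positivity) (prop_ge _ (resMat_diag (D i)))
  · have h1 := prop_34 (resMat_diag (D i)) (resMat_symm (hD i))
      (card_pos.2 (nonempty_iff_ne_empty.2 (hV i h)))
    linarith

theorem spr_mem (D : ℕ) (i : Fin (split D).card) : spr D i ∈ sp D.primeFactors := by
  rw [sp_split]
  exact orderEmbOfFin_mem _ rfl i

theorem spr_sp {D : ℕ} (hD : Family D) (i : Fin (split D).card) :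
    (spr D i).Prime ∧ spr D i % 4 = 1 ∧ R413.SQ.mk (spr D i) = 1 :=
  PrimeTwistsX49.spU (PrimeTwistsX49.fam_pr hD) _ (spr_mem D i)

theorem exists_mult {D : ℕ} (hD : Family D) : ∃ s : (Fin (split D).card → ZMod 2) → ℕ,
    Multipliers D s ∧ ∀ w, Inert (s w) := by
  have hz : ∀ z : ZMod 2, z ≠ 0 → z = 1 := by decide
  have key : ∀ w : Fin (split D).card → ZMod 2, ∃ p : ℕ, (InertProduct p ∧
      ∀ i, (IsSquare ((p : ℕ) : ZMod (spr D i)) ↔ w i = 0)) ∧ Inert p := by
    intro w
    set B : Finset ℕ := (univ.filter fun i => w i ≠ 0).image (spr D) with hB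
    have hBU : B ⊆ sp D.primeFactors := by
      intro u hu
      obtain ⟨i, -, rfl⟩ := mem_image.1 hu
      exact spr_mem D i
    obtain ⟨p, hp, hi, hs⟩ := exists_inert (PrimeTwistsX49.spU (PrimeTwistsX49.fam_pr hD)) hBU
    have hin : Inert p := PrimeTwistsX49.inert_iff.2 ⟨hp, hi⟩
    refine ⟨p, ⟨⟨hp.prime.squarefree, fun t ht => ?_⟩, fun i => ?_⟩, hin⟩
    · rw [hp.primeFactors, mem_singleton] at ht
      rw [ht]
      exact hin.2
    · have h1 := hs (spr D i) (spr_mem D i)
      have h2 : ind B (spr D i) = w i := by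
        unfold ind
        by_cases h : w i = 0
        · rw [if_neg, h]
          intro h'
          obtain ⟨j, hj, hji⟩ := mem_image.1 h'
          have := (spr_spec D).1 hji
          subst this
          exact (mem_filter.1 hj).2 h
        · rw [if_pos (mem_image.2 ⟨i, mem_filter.2 ⟨mem_univ i, h⟩, rfl⟩), hz _ h]
      rw [← h2, ← h1]
      unfold nr
      by_cases h : IsSquare ((p : ℕ) : ZMod (spr D i))
      · rw [if_pos h]
        exact ⟨fun _ => rfl, fun _ => h⟩
      · rw [if_neg h]
        exact ⟨fun h' => absurd h' h, fun h' => absurd h' one_ne_zero⟩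
  choose s hs using key
  exact ⟨s, fun w => (hs w).1, fun w => (hs w).2⟩

theorem good_eq {D : ℕ} (hD : Family D) {s : (Fin (split D).card → ZMod 2) → ℕ}
    (hs : Multipliers D s) {n : ℕ} (hn : InertProduct n) : good D s n = Mc (resMat D) := by
  have hz : ∀ z : ZMod 2, z ≠ 0 → z = 1 := by decide
  set v : Fin (split D).card → ZMod 2 :=
    fun i => n4 (spr D i) + sy n (spr D i) + degree D (spr D i) with hv
  have key : ∀ w, RankZeroShaTwo (tw (tw D (s w)) n) ↔
      (resMat D + Matrix.diagonal fun i => w i + v i).det ≠ 0 := by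
    intro w
    obtain ⟨h1, h2⟩ := InertTwistsX49.fam_tw hD (hs w).1
    rw [InertTwistsX49.rank_iff h1 hn, h2, gd_prod (InertTwistsX49.inp_iff.1 (hs w).1), gd_diag]
    have h3 : (fun i => (fun u => n4 u + sy n u + sy (s w) u) (spr D i) + degree D (spr D i)) =
        fun i => w i + v i := by
      funext i
      have h4 : sy (s w) (spr D i) = w i := by
        obtain ⟨h5, -, h6⟩ := spr_sp hD i
        rw [sy_nr (InertTwistsX49.inp_iff.1 (hs w).1) h5 h6]
        unfold nr
        by_cases h : w i = 0
        · rw [if_pos (((hs w).2 i).2 h), h]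
        · rw [if_neg fun h' => h (((hs w).2 i).1 h'), hz _ h]
      beta_reduce
      rw [h4, hv]
      ring
    unfold diagMat
    rw [h3]
  unfold good Mc
  refine card_bij (fun w _ => w + v) (fun w hw => ?_) (fun w _ w' _ h => add_right_cancel h)
    fun g hg => ⟨g - v, ?_, sub_add_cancel g v⟩
  · rw [mem_filter] at hw ⊢
    exact ⟨mem_univ _, (key w).1 hw.2⟩
  · rw [mem_filter] at hg ⊢
    refine ⟨mem_univ _, (key _).2 ?_⟩
    have h1 : (fun i => (g - v) i + v i) = g := by
      funext i
      rw [Pi.sub_apply, sub_add_cancel]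
    rw [h1]
    exact hg.2

theorem good_real {D : ℕ} (hD : Family D) {s : (Fin (split D).card → ZMod 2) → ℕ}
    (hs : Multipliers D s) {n : ℕ} (hn : InertProduct n) :
    (good D s n : ℝ) = 2 ^ (split D).card * proportion (resMat D) ∧ 0 < good D s n := by
  rw [good_eq hD hs hn]
  refine ⟨?_, Mc_pos _ (resMat_diag D)⟩
  rw [prop_mc, mul_div_cancel₀ _ (by positivity)]

theorem good_ex {D : ℕ} {s : (Fin (split D).card → ZMod 2) → ℕ} {n : ℕ} (h : 0 < good D s n) :
    ∃ w, RankZeroShaTwo (tw (tw D (s w)) n) := by
  unfold good at h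
  obtain ⟨w, hw⟩ := card_pos.1 h
  exact ⟨w, (mem_filter.1 hw).2⟩

end proof

theorem result :
    (∀ (r : ℕ) (D : Fin r → ℕ), (∀ i, Family (D i)) → ∀ V : Finset (Fin r),
      BothJoint D V (joint D V) ∧
      ((∀ i j, i ≠ j → Disjoint (split (D i)) (split (D j))) →
        joint D V = (∏ i, if i ∈ V then proportion (resMat (D i)) else
          1 - proportion (resMat (D i))) ∧
        ((∀ i, i ∉ V → split (D i) ≠ ∅) → 0 < joint D V))) ∧
    ∀ D : ℕ, Family D →
      (∀ p : ℕ, Inert p → ¬ p ∣ D → RankZeroShaTwo (D * p) → AnalyticRankZero (D * p)) ∧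
      (∀ n : ℕ, InertProduct n → RankZeroShaTwo (tw D n) → AnalyticRankZero (tw D n)) ∧
      (∃ s, Multipliers D s ∧ ∀ w, Inert (s w)) ∧
      ∀ s, Multipliers D s → ∀ n : ℕ, InertProduct n →
        (good D s n : ℝ) = 2 ^ (split D).card * proportion (resMat D) ∧ 0 < good D s n ∧
        ∃ w, AnalyticRankZero (tw (tw D (s w)) n) := by
  have h0 : ∀ D : ℕ, Family D →
      (∀ p : ℕ, Inert p → ¬ p ∣ D → RankZeroShaTwo (D * p) → AnalyticRankZero (D * p)) ∧
      ∀ n : ℕ, InertProduct n → RankZeroShaTwo (tw D n) → AnalyticRankZero (tw D n) :=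
    fun D hD => ⟨fun p hp hpD h => ((PrimeTwistsX49.result.1 D hD).1 p hp hpD).2 h,
      fun n hn h => ((InertTwistsX49.result.1 D hD).1 n hn).2.2 h⟩
  refine ⟨fun r D hD V => ⟨both hD V, fun hd => ⟨indep V hd, fun hV => joint_pos hD V hd hV⟩⟩,
    fun D hD => ⟨(h0 D hD).1, (h0 D hD).2, exists_mult hD, fun s hs n hn => ?_⟩⟩
  obtain ⟨h1, h2⟩ := good_real hD hs hn
  refine ⟨h1, h2, ?_⟩
  obtain ⟨w, hw⟩ := good_ex h2
  exact ⟨w, (h0 _ (InertTwistsX49.fam_tw hD (hs w).1).1).2 n hn hw⟩

end Pool.Agent.Results.MP_03e5d0_nt.JointDensitiesX49
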